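import Mathlib

set_option autoImplicit false

namespace Pool.Agent.Results.MP_5491e1_lc.Counter

open Finset

/-- `pos i c` is the position of candidate `c` in the ranking of voter `i` (position `0` is the
best). `Edge pos k a i j` says that `(i, j)` is an edge of the graph `G_k(a)`. -/
def Edge {n m : ℕ} [NeZero m] (pos : Fin n → Fin m ≃ Fin m) (k : ℕ) (a : Fin m) (i j : Fin n) :
    Prop :=
  (pos j).symm 0 = a ∨ ((pos i a : ℕ) < k ∧ ¬ pos i ((pos j).symm 0) < pos i a)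

def p0 : Fin 15 ≃ Fin 15 := ⟨![0, 13, 14, 1, 2, 3, 4, 5, 6, 7, 8, 9, 10, 11, 12],
  ![0, 3, 4, 5, 6, 7, 8, 9, 10, 11, 12, 13, 14, 1, 2], by decide, by decide⟩

def p1 : Fin 15 ≃ Fin 15 := ⟨![1, 0, 14, 2, 3, 4, 5, 6, 7, 8, 9, 10, 11, 12, 13],
  ![1, 0, 3, 4, 5, 6, 7, 8, 9, 10, 11, 12, 13, 14, 2], by decide, by decide⟩

def pos (i : Fin 7) : Fin 15 ≃ Fin 15 := if i < 2 then p0 else if i < 4 then p1 else .swap 0 2

instance (a : Fin 15) (i j : Fin 7) : Decidable (Edge pos 13 a i j) :=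
  inferInstanceAs (Decidable (_ ∨ _))

def A (a : Fin 15) : Finset (Fin 7) :=
  if a = 1 then {0, 1, 4, 5, 6} else if a = 2 then {0, 1, 2, 3} else {4, 5, 6}

def N (a : Fin 15) : Finset (Fin 7) :=
  if a = 1 then {0, 1, 2, 3} else if a = 2 then {4, 5, 6} else {0, 1}

theorem result : ∃ (n m k : ℕ) (_ : NeZero m) (pos : Fin n → Fin m ≃ Fin m),
    1 ≤ n ∧ 1 ≤ k ∧ k ≤ m ∧ ¬ ∃ (a : Fin m) (S : Finset (Fin n)) (M : S ≃ S),
      (n * k : ℚ) / m ≤ S.card ∧ ∀ i : S, Edge pos k a i (M i) := by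
  refine ⟨7, 15, 13, inferInstance, pos, by omega, by omega, by omega, ?_⟩
  rintro ⟨a, S, M, h1, h2⟩
  have h3 : 6 < S.card := by
    have : (6 : ℚ) < S.card := lt_of_lt_of_le (by norm_num) h1
    exact_mod_cast this
  obtain rfl : S = univ := eq_univ_of_card _ (le_antisymm (card_le_univ _) h3)
  have h4 : ∀ a, (N a).card < (A a).card ∧ ∀ i ∈ A a, ∀ j, Edge pos 13 a i j → j ∈ N a := by
    decide +kernel
  refine (h4 a).1.not_ge (card_le_card_of_injOn (fun i => M ⟨i, mem_univ _⟩)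
    (fun i hi => (h4 a).2 i hi _ (h2 ⟨i, mem_univ _⟩)) fun i _ j _ h => ?_)
  exact congrArg Subtype.val (M.injective (Subtype.ext h))

end Pool.Agent.Results.MP_5491e1_lc.Counter
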